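import Pool.Agent.TH502.RG.Main

set_option autoImplicit false
set_option linter.unusedSectionVars false

namespace Pool.Agent.TH502.PK

open Finset

/-! ### circuits -/

/-- vertices of the circuit of length eight without the edge `10 + v` -/
def c8v : Fin 5 → Fin 8 → Fin 10 :=
  ![![1, 2, 7, 9, 4, 3, 8, 6], ![2, 3, 8, 5, 0, 4, 9, 7], ![3, 4, 9, 6, 1, 0, 5, 8],
    ![4, 0, 5, 7, 2, 1, 6, 9], ![0, 1, 6, 8, 3, 2, 7, 5]]

/-- its edges -/
def c8e : Fin 5 → Fin 8 → Fin 15 :=
  ![![1, 12, 7, 14, 3, 13, 6, 11], ![2, 13, 8, 10, 4, 14, 7, 12], ![3, 14, 9, 11, 0, 10, 8, 13],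
    ![4, 10, 5, 12, 1, 11, 9, 14], ![0, 11, 6, 13, 2, 12, 5, 10]]

/-- vertices of a circuit of length five -/
def c5v : Fin 5 → Fin 5 → Fin 10 :=
  ![![0, 1, 6, 8, 5], ![1, 2, 7, 9, 6], ![2, 3, 8, 5, 7], ![3, 4, 9, 6, 8], ![4, 0, 5, 7, 9]]

/-- its edges -/
def c5e : Fin 5 → Fin 5 → Fin 15 :=
  ![![0, 11, 6, 8, 10], ![1, 12, 7, 9, 11], ![2, 13, 8, 5, 12], ![3, 14, 9, 6, 13],
    ![4, 10, 5, 7, 14]]

/-- vertices of the pentagram -/
def piv : Fin 5 → Fin 10 := ![5, 7, 9, 6, 8]

/-- its edges -/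
def pie : Fin 5 → Fin 15 := ![5, 7, 9, 6, 8]

lemma c8_inj (v : Fin 5) : Function.Injective (c8v v) ∧ Function.Injective (c8e v) := by
  revert v
  decide +kernel

lemma c8_joins (v : Fin 5) (i : Fin 8) :
    (petersen.fst (c8e v i) = c8v v i ∧ petersen.snd (c8e v i) = c8v v (i + 1)) ∨
    (petersen.fst (c8e v i) = c8v v (i + 1) ∧ petersen.snd (c8e v i) = c8v v i) := by
  revert v i
  decide +kernel

lemma c5_inj (v : Fin 5) : Function.Injective (c5v v) ∧ Function.Injective (c5e v) := by
  revert v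
  decide +kernel

lemma c5_joins (v : Fin 5) (i : Fin 5) :
    (petersen.fst (c5e v i) = c5v v i ∧ petersen.snd (c5e v i) = c5v v (i + 1)) ∨
    (petersen.fst (c5e v i) = c5v v (i + 1) ∧ petersen.snd (c5e v i) = c5v v i) := by
  revert v i
  decide +kernel

lemma pi_inj : Function.Injective piv ∧ Function.Injective pie := by
  decide +kernel

lemma pi_joins (i : Fin 5) :
    (petersen.fst (pie i) = piv i ∧ petersen.snd (pie i) = piv (i + 1)) ∨
    (petersen.fst (pie i) = piv (i + 1) ∧ petersen.snd (pie i) = piv i) := by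
  revert i
  decide +kernel

lemma circ {s n : ℕ} (v : Fin (n + 1) → Fin 10) (e : Fin (n + 1) → Fin 15)
    (hv : Function.Injective v) (he : Function.Injective e)
    (hj : ∀ i, (petersen.fst (e i) = v i ∧ petersen.snd (e i) = v (i + 1)) ∨
      (petersen.fst (e i) = v (i + 1) ∧ petersen.snd (e i) = v i)) :
    (bigG s).IsCircuit ((univ.image e).image Sum.inl) := by
  refine ⟨n, v, fun i => Sum.inl (e i), hv, fun i j h => he (Sum.inl_injective h), ?_, ?_⟩
  · intro i
    exact hj i
  · intro x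
    constructor
    · intro hx
      obtain ⟨j, hj', rfl⟩ := mem_image.1 hx
      obtain ⟨i, -, rfl⟩ := mem_image.1 hj'
      exact ⟨i, rfl⟩
    · rintro ⟨i, rfl⟩
      exact mem_image_of_mem _ (mem_image_of_mem _ (mem_univ _))

lemma digon {s : ℕ} (i : Fin 5) (t : Fin s) :
    (bigG s).IsCircuit {Sum.inl (Fin.natAdd 10 i), Sum.inr (i, t)} := by
  have hne : petersen.fst (Fin.natAdd 10 i) ≠ petersen.snd (Fin.natAdd 10 i) := no_loop _
  refine ⟨1, (![petersen.fst (Fin.natAdd 10 i), petersen.snd (Fin.natAdd 10 i)] : Fin 2 → Fin 10),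
    (![Sum.inl (Fin.natAdd 10 i), Sum.inr (i, t)] : Fin 2 → Fin 15 ⊕ (Fin 5 × Fin s)),
    ?_, ?_, ?_, ?_⟩
  · intro x z h
    change Fin 2 at x z
    fin_cases x <;> fin_cases z
    · rfl
    · exact absurd h hne
    · exact absurd h.symm hne
    · rfl
  · intro x z h
    change Fin 2 at x z
    fin_cases x <;> fin_cases z
    · rfl
    · exact absurd h (by simp)
    · exact absurd h (by simp)
    · rfl
  · intro x
    change Fin 2 at x
    fin_cases x
    · exact Or.inl ⟨rfl, rfl⟩
    · exact Or.inr ⟨rfl, rfl⟩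
  · intro x
    rw [mem_insert, mem_singleton]
    constructor
    · rintro (rfl | rfl)
      · exact ⟨(0 : Fin 2), rfl⟩
      · exact ⟨(1 : Fin 2), rfl⟩
    · rintro ⟨j, hj⟩
      change Fin 2 at j
      fin_cases j
      · exact Or.inl hj.symm
      · exact Or.inr hj.symm

/-- indicator of a finite set -/
def chi {E : Type} [DecidableEq E] (K : Type) [Zero K] [One K] (C : Finset E) : E → K :=
  fun e => if e ∈ C then 1 else 0

lemma chi_mem {V E : Type} [DecidableEq E] (G : MG V E) (K : Type) [Zero K] [One K]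
    {C : Finset E} (h : G.IsCircuit C) : chi K C ∈ G.circuitVectors K := ⟨C, h, rfl⟩

lemma cnt8 (j : Fin 15) : ∑ v : Fin 5, (if j ∈ univ.image (c8e v) then 1 else 0) =
    if j.1 < 10 then 2 else 4 := by
  revert j
  decide +kernel

lemma cnt5 (j : Fin 15) : ∑ v : Fin 5, (if j ∈ univ.image (c5e v) then 1 else 0) =
    (if j.1 < 10 then 1 else 2) + (if j ∈ univ.image pie then 1 else 0) := by
  revert j
  decide +kernel

lemma natAdd_iff (j : Fin 15) : (∃ i : Fin 5, j = Fin.natAdd 10 i) ↔ ¬ j.1 < 10 := by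
  revert j
  decide +kernel

section

variable {s : ℕ} {K : Type} [CommSemiring K]

lemma chi_inl_image (A : Finset (Fin 15)) (j : Fin 15) :
    chi K ((A.image Sum.inl : Finset (Fin 15 ⊕ (Fin 5 × Fin s)))) (Sum.inl j) =
      if j ∈ A then 1 else 0 := by
  unfold chi
  congr 1
  simp

lemma chi_inr_image (A : Finset (Fin 15)) (x : Fin 5 × Fin s) :
    chi K ((A.image Sum.inl : Finset (Fin 15 ⊕ (Fin 5 × Fin s)))) (Sum.inr x) = 0 := by
  unfold chi
  rw [if_neg]
  simp

/-- the digons with multiplicities -/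
def digs (a : Fin s → K) : Fin 15 ⊕ (Fin 5 × Fin s) → K :=
  ∑ i : Fin 5, ∑ t : Fin s, a t • chi K ({Sum.inl (Fin.natAdd 10 i), Sum.inr (i, t)} :
    Finset (Fin 15 ⊕ (Fin 5 × Fin s)))

lemma digs_inl (a : Fin s → K) (j : Fin 15) :
    digs a (Sum.inl j) = if j.1 < 10 then 0 else ∑ t, a t := by
  unfold digs chi
  simp only [Finset.sum_apply, Pi.smul_apply, smul_eq_mul, mem_insert, mem_singleton, Sum.inl.injEq,
    reduceCtorEq, or_false, mul_ite, mul_one, mul_zero]
  by_cases h : j.1 < 10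
  · rw [if_pos h]
    refine sum_eq_zero fun i _ => sum_eq_zero fun t _ => ?_
    rw [if_neg]
    intro hj
    exact (natAdd_iff j).1 ⟨i, hj⟩ h
  · rw [if_neg h]
    obtain ⟨i, hi⟩ := (natAdd_iff j).2 h
    rw [sum_eq_single i]
    · refine sum_congr rfl fun t _ => ?_
      rw [if_pos hi]
    · intro i' _ hne
      refine sum_eq_zero fun t _ => ?_
      rw [if_neg]
      intro hj
      rw [hi] at hj
      exact hne ((Fin.natAdd_injective 5 10 hj).symm)
    · intro hh
      exact absurd (mem_univ _) hh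

lemma digs_inr (a : Fin s → K) (x : Fin 5 × Fin s) : digs a (Sum.inr x) = a x.2 := by
  unfold digs chi
  simp only [Finset.sum_apply, Pi.smul_apply, smul_eq_mul, mem_insert, mem_singleton, reduceCtorEq,
    false_or, Sum.inr.injEq, mul_ite, mul_one, mul_zero]
  rw [sum_eq_single x.1, sum_eq_single x.2]
  · rw [if_pos rfl]
  · intro t _ hne
    rw [if_neg]
    intro h
    exact hne (by rw [h])
  · intro hh
    exact absurd (mem_univ _) hh
  · intro i _ hne
    refine sum_eq_zero fun t _ => ?_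
    rw [if_neg]
    intro h
    exact hne (by rw [h])
  · intro hh
    exact absurd (mem_univ _) hh

end

lemma in_cone {s : ℕ} (m b : ℕ) (a : Fin s → ℕ) (hb : b = 2 * m + ∑ t, a t) :
    (bigG s).InCone (bigW m b a) := by
  have h : (fun e => (bigW m b a e : ℝ)) =
      (∑ v : Fin 5, ((m : NNReal) / 2) • chi ℝ ((univ.image (c8e v)).image Sum.inl)) +
      ∑ i : Fin 5, ∑ t : Fin s, (a t : NNReal) •
        chi ℝ ({Sum.inl (Fin.natAdd 10 i), Sum.inr (i, t)} :
          Finset (Fin 15 ⊕ (Fin 5 × Fin s))) := by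
    have hd : (∑ i : Fin 5, ∑ t : Fin s, (a t : NNReal) •
        chi ℝ ({Sum.inl (Fin.natAdd 10 i), Sum.inr (i, t)} :
          Finset (Fin 15 ⊕ (Fin 5 × Fin s)))) = digs (fun t => (a t : ℝ)) := by
      unfold digs
      refine sum_congr rfl fun i _ => sum_congr rfl fun t _ => ?_
      ext e
      simp [NNReal.smul_def]
    rw [hd]
    ext e
    rw [Pi.add_apply, Finset.sum_apply]
    rcases e with j | x
    · rw [digs_inl]
      have h1 : ∀ v : Fin 5, (((m : NNReal) / 2) •
          chi ℝ ((univ.image (c8e v)).image Sum.inl : Finset (Fin 15 ⊕ (Fin 5 × Fin s))))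
            (Sum.inl j) = (m : ℝ) / 2 * ((if j ∈ univ.image (c8e v) then 1 else 0 : ℕ) : ℝ) := by
        intro v
        rw [Pi.smul_apply, chi_inl_image, NNReal.smul_def]
        push_cast
        rfl
      rw [sum_congr rfl fun v _ => h1 v, ← mul_sum, ← Nat.cast_sum, cnt8]
      unfold bigW
      simp only [Sum.elim_inl]
      split_ifs with hj
      · push_cast
        ring
      · rw [hb]
        push_cast
        ring
    · rw [digs_inr, sum_eq_zero, zero_add]
      · rfl
      · intro v _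
        rw [Pi.smul_apply, chi_inr_image, smul_zero]
  unfold MG.InCone
  rw [h]
  refine Submodule.add_mem _ (Submodule.sum_mem _ fun v _ => Submodule.smul_mem _ _
    (Submodule.subset_span (chi_mem _ _ (circ (c8v v) (c8e v) (c8_inj v).1 (c8_inj v).2
      (c8_joins v))))) (Submodule.sum_mem _ fun i _ => Submodule.sum_mem _ fun t _ =>
        Submodule.smul_mem _ _ (Submodule.subset_span (chi_mem _ _ (digon i t))))

lemma in_lat {s : ℕ} (m b : ℕ) (a : Fin s → ℕ) (hb : b = 2 * m + ∑ t, a t) :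
    (bigG s).InLat (bigW m b a) := by
  have h : (fun e => (bigW m b a e : ℤ)) =
      ((∑ v : Fin 5, (m : ℤ) • chi ℤ ((univ.image (c5e v)).image Sum.inl)) -
        (m : ℤ) • chi ℤ ((univ.image pie).image Sum.inl)) +
      ∑ i : Fin 5, ∑ t : Fin s, (a t : ℤ) •
        chi ℤ ({Sum.inl (Fin.natAdd 10 i), Sum.inr (i, t)} :
          Finset (Fin 15 ⊕ (Fin 5 × Fin s))) := by
    have hd : (∑ i : Fin 5, ∑ t : Fin s, (a t : ℤ) •
        chi ℤ ({Sum.inl (Fin.natAdd 10 i), Sum.inr (i, t)} :
          Finset (Fin 15 ⊕ (Fin 5 × Fin s)))) = digs (fun t => (a t : ℤ)) := rfl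
    rw [hd]
    ext e
    rw [Pi.add_apply, Pi.sub_apply, Finset.sum_apply]
    rcases e with j | x
    · rw [digs_inl]
      have h1 : ∀ v : Fin 5, ((m : ℤ) •
          chi ℤ ((univ.image (c5e v)).image Sum.inl : Finset (Fin 15 ⊕ (Fin 5 × Fin s))))
            (Sum.inl j) = (m : ℤ) * ((if j ∈ univ.image (c5e v) then 1 else 0 : ℕ) : ℤ) := by
        intro v
        rw [Pi.smul_apply, chi_inl_image, smul_eq_mul]
        push_cast
        rfl
      rw [sum_congr rfl fun v _ => h1 v, ← mul_sum, ← Nat.cast_sum, cnt5, Pi.smul_apply,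
        chi_inl_image, smul_eq_mul]
      unfold bigW
      simp only [Sum.elim_inl]
      split_ifs with hj h2 h2
      · push_cast
        ring
      · push_cast
        ring
      · rw [hb]
        push_cast
        ring
      · rw [hb]
        push_cast
        ring
    · rw [digs_inr, sum_eq_zero, Pi.smul_apply, chi_inr_image, smul_zero, sub_zero, zero_add]
      · rfl
      · intro v _
        rw [Pi.smul_apply, chi_inr_image, smul_zero]
  unfold MG.InLat
  rw [h]
  refine Submodule.add_mem _ (Submodule.sub_mem _ (Submodule.sum_mem _ fun v _ =>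
    Submodule.smul_mem _ _ (Submodule.subset_span (chi_mem _ _ (circ (c5v v) (c5e v)
      (c5_inj v).1 (c5_inj v).2 (c5_joins v))))) (Submodule.smul_mem _ _ (Submodule.subset_span
        (chi_mem _ _ (circ piv pie pi_inj.1 pi_inj.2 pi_joins))))) (Submodule.sum_mem _ fun i _ =>
          Submodule.sum_mem _ fun t _ =>
        Submodule.smul_mem _ _ (Submodule.subset_span (chi_mem _ _ (digon i t))))

/-- A set with an odd number `m` and a number `b` such that `b - 2 m` is a (possibly empty) sum of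
members of the set is a bad range. -/
lemma bad_of_odd (R : Set ℕ) (m b c : ℕ) (hm : m ∈ R) (ho : Odd m) (hb : b ∈ R)
    (hc : c ∈ AddSubmonoid.closure R) (hbc : b = 2 * m + c) : ¬ GoodRange R := by
  intro hg
  obtain ⟨l, hl, hs⟩ := AddSubmonoid.exists_list_of_mem_closure hc
  have hsum : ∑ t : Fin l.length, l.get t = c := by
    rw [← hs, ← List.sum_ofFn, List.ofFn_get]
  have h1 := hg (Fin 10) (Fin 15 ⊕ (Fin 5 × Fin l.length)) (bigG l.length) (bigW m b l.get) (by
    rintro (j | x)
    · show (if j.1 < 10 then m else b) ∈ R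
      split_ifs
      · exact hm
      · exact hb
    · exact hl _ (List.get_mem l x.2))
  have hb' : b = 2 * m + ∑ t : Fin l.length, l.get t := by rw [hsum, hbc]
  have h2 := no_cover m b l.get hb' (h1.2 ⟨in_cone m b l.get hb', in_lat m b l.get hb'⟩)
  exact (Nat.not_even_iff_odd.2 ho) h2

end Pool.Agent.TH502.PK
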