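import Pool.Agent.TH502.PK.Defs

/-!
# Circuit cone, circuit lattice, good ranges
-/

set_option autoImplicit false

namespace Pool.Agent.TH502.PK

/-- The incidence vectors of the circuits of `G`, with entries `0`, `1` of the semiring `K`. -/
def MG.circuitVectors {V E : Type} [DecidableEq E] (G : MG V E) (K : Type) [Zero K] [One K] :
    Set (E → K) :=
  {x | ∃ C : Finset E, G.IsCircuit C ∧ x = fun e => if e ∈ C then 1 else 0}

/-- `p` is a nonnegative real combination of incidence vectors of circuits. -/
def MG.InCone {V E : Type} [DecidableEq E] (G : MG V E) (p : E → ℕ) : Prop :=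
  (fun e => (p e : ℝ)) ∈ Submodule.span NNReal (G.circuitVectors ℝ)

/-- `p` is an integer combination of incidence vectors of circuits. -/
def MG.InLat {V E : Type} [DecidableEq E] (G : MG V E) (p : E → ℕ) : Prop :=
  (fun e => (p e : ℤ)) ∈ Submodule.span ℤ (G.circuitVectors ℤ)

/-- `R` is a good range: for every finite multigraph (loops and parallel edges allowed) and every
weighting with values in `R` there is a circuit cover if and only if the weighting lies in the cone
and in the lattice of the circuits. -/
def GoodRange (R : Set ℕ) : Prop :=
  ∀ (V E : Type) [Fintype V] [Fintype E] [DecidableEq V] [DecidableEq E] (G : MG V E) (p : E → ℕ),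
    (∀ e, p e ∈ R) → (G.FaithfulCover p ↔ G.InCone p ∧ G.InLat p)

end Pool.Agent.TH502.PK
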