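import Pool.Agent.TH502.RG.Defs
import Pool.Agent.TH502.PK.Main

/-!
# Ranges with an odd number
-/

set_option autoImplicit false
set_option linter.unusedSectionVars false

namespace Pool.Agent.TH502.PK

open Finset

/-- The Petersen graph with `s` further edges parallel to every edge between the pentagon and the
pentagram. -/
def bigG (s : ℕ) : MG (Fin 10) (Fin 15 ⊕ (Fin 5 × Fin s)) where
  fst := Sum.elim petersen.fst (fun x => petersen.fst (Fin.natAdd 10 x.1))
  snd := Sum.elim petersen.snd (fun x => petersen.snd (Fin.natAdd 10 x.1))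

/-- weight `m` on the pentagon and the pentagram, `b` on the edges between them, `a t` on the
further edges -/
def bigW {s : ℕ} (m b : ℕ) (a : Fin s → ℕ) : Fin 15 ⊕ (Fin 5 × Fin s) → ℕ :=
  Sum.elim (fun j => if j.1 < 10 then m else b) (fun x => a x.2)

/-! ### no circuit cover -/

lemma key2 {α : Type} (L : List α) (y : α → Fin 15 → ℕ) (D : α → Fin 5 → ℕ) (m c : ℕ)
    (h1 : ∀ a ∈ L, ∀ j, y a j ≤ 1)
    (h2 : ∀ a ∈ L, ∀ u : Fin 10, Even (∑ j, ((if petersen.fst j = u then y a j else 0) +
      (if petersen.snd j = u then y a j else 0)) +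
      ∑ i : Fin 5, ((if petersen.fst (Fin.natAdd 10 i) = u then D a i else 0) +
      (if petersen.snd (Fin.natAdd 10 i) = u then D a i else 0))))
    (h3 : ∀ j : Fin 15, (L.map fun a => y a j).sum = if j.1 < 10 then m else 2 * m + c)
    (h4 : ∀ i, (L.map fun a => D a i).sum = c) : Even m := by
  have hsum : ∀ (x z w : Fin 15) (i : Fin 5), x.1 < 10 → z.1 < 10 → ¬ w.1 < 10 →
      (∀ a ∈ L, Even (y a x + y a z + y a w + D a i)) →
      ∀ a ∈ L, y a w = y a x + y a z + D a i := by
    intro x z w i hx hz hw he
    refine list_eq L (fun a => y a w) (fun a => y a x + y a z + D a i) ?_ ?_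
    · intro a ha
      have e1 := he a ha
      have e4 := h1 a ha w
      rw [Nat.even_iff] at e1
      show y a w ≤ y a x + y a z + D a i
      omega
    · have e1 : (L.map fun a => y a x + y a z + D a i).sum =
          (L.map fun a => y a x).sum + (L.map fun a => y a z).sum + (L.map fun a => D a i).sum := by
        rw [← List.sum_map_add, ← List.sum_map_add]
      rw [e1, h3, h3, h3, h4, if_pos hx, if_pos hz, if_neg hw]
      ring
  have v0 := hsum 0 4 10 0 (by decide) (by decide) (by decide) (fun a ha => by
    have := h2 a ha 0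
    simp [Fin.sum_univ_succ, petersen, Fin.natAdd] at this
    rw [Nat.even_iff] at this ⊢
    omega)
  have v1 := hsum 0 1 11 1 (by decide) (by decide) (by decide) (fun a ha => by
    have := h2 a ha 1
    simp [Fin.sum_univ_succ, petersen, Fin.natAdd] at this
    rw [Nat.even_iff] at this ⊢
    omega)
  have v2 := hsum 1 2 12 2 (by decide) (by decide) (by decide) (fun a ha => by
    have := h2 a ha 2
    simp [Fin.sum_univ_succ, petersen, Fin.natAdd] at this
    rw [Nat.even_iff] at this ⊢
    omega)
  have v3 := hsum 2 3 13 3 (by decide) (by decide) (by decide) (fun a ha => by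
    have := h2 a ha 3
    simp [Fin.sum_univ_succ, petersen, Fin.natAdd] at this
    rw [Nat.even_iff] at this ⊢
    omega)
  have v4 := hsum 3 4 14 4 (by decide) (by decide) (by decide) (fun a ha => by
    have := h2 a ha 4
    simp [Fin.sum_univ_succ, petersen, Fin.natAdd] at this
    rw [Nat.even_iff] at this ⊢
    omega)
  have v5 := hsum 5 8 10 0 (by decide) (by decide) (by decide) (fun a ha => by
    have := h2 a ha 5
    simp [Fin.sum_univ_succ, petersen, Fin.natAdd] at this
    rw [Nat.even_iff] at this ⊢
    omega)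
  have v6 := hsum 6 9 11 1 (by decide) (by decide) (by decide) (fun a ha => by
    have := h2 a ha 6
    simp [Fin.sum_univ_succ, petersen, Fin.natAdd] at this
    rw [Nat.even_iff] at this ⊢
    omega)
  have v7 := hsum 5 7 12 2 (by decide) (by decide) (by decide) (fun a ha => by
    have := h2 a ha 7
    simp [Fin.sum_univ_succ, petersen, Fin.natAdd] at this
    rw [Nat.even_iff] at this ⊢
    omega)
  have v8 := hsum 6 8 13 3 (by decide) (by decide) (by decide) (fun a ha => by
    have := h2 a ha 8
    simp [Fin.sum_univ_succ, petersen, Fin.natAdd] at this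
    rw [Nat.even_iff] at this ⊢
    omega)
  have v9 := hsum 7 9 14 4 (by decide) (by decide) (by decide) (fun a ha => by
    have := h2 a ha 9
    simp [Fin.sum_univ_succ, petersen, Fin.natAdd] at this
    rw [Nat.even_iff] at this ⊢
    omega)
  have hE := list_even L (fun a => y a 0 + y a 1 + y a 2 + y a 3 + y a 4) (fun a ha => by
    rw [Nat.even_iff]
    have w0 := v0 a ha
    have w1 := v1 a ha
    have w2 := v2 a ha
    have w3 := v3 a ha
    have w4 := v4 a ha
    have w5 := v5 a ha
    have w6 := v6 a ha
    have w7 := v7 a ha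
    have w8 := v8 a ha
    have w9 := v9 a ha
    have z0 := h1 a ha 10
    have z1 := h1 a ha 11
    have z2 := h1 a ha 12
    have z3 := h1 a ha 13
    have z4 := h1 a ha 14
    exact nat_key (y a 0) (y a 1) (y a 2) (y a 3) (y a 4) (y a 5) (y a 6) (y a 7) (y a 8) (y a 9)
      (by omega) (by omega) (by omega) (by omega) (by omega) (by omega) (by omega) (by omega)
      (by omega) (by omega))
  have hS : (L.map fun a => y a 0 + y a 1 + y a 2 + y a 3 + y a 4).sum = 5 * m := by
    have e1 : (L.map fun a => y a 0 + y a 1 + y a 2 + y a 3 + y a 4).sum =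
        (L.map fun a => y a 0).sum + (L.map fun a => y a 1).sum + (L.map fun a => y a 2).sum +
        (L.map fun a => y a 3).sum + (L.map fun a => y a 4).sum := by
      rw [← List.sum_map_add, ← List.sum_map_add, ← List.sum_map_add, ← List.sum_map_add]
    rw [e1, h3, h3, h3, h3, h3]
    show m + m + m + m + m = 5 * m
    ring
  rw [hS, Nat.even_iff] at hE
  rw [Nat.even_iff]
  omega

lemma countP_sum {E : Type} [DecidableEq E] (F : List (Finset E)) (e : E) :
    (F.map fun C => if e ∈ C then 1 else 0).sum = F.countP (fun C => e ∈ C) := by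
  induction F with
  | nil => rfl
  | cons C F ih =>
    rw [List.map_cons, List.sum_cons, ih, List.countP_cons]
    by_cases h : e ∈ C
    · simp [h, add_comm]
    · simp [h]

lemma sum_swap {α ι : Type} (F : List α) (S : Finset ι) (f : α → ι → ℕ) :
    (F.map fun C => ∑ t ∈ S, f C t).sum = ∑ t ∈ S, (F.map fun C => f C t).sum := by
  induction F with
  | nil => simp
  | cons C F ih =>
    simp only [List.map_cons, List.sum_cons]
    rw [ih, sum_add_distrib]

lemma no_cover {s : ℕ} (m b : ℕ) (a : Fin s → ℕ) (hb : b = 2 * m + ∑ t, a t)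
    (h : (bigG s).FaithfulCover (bigW m b a)) : Even m := by
  obtain ⟨F, hF, hw⟩ := h
  refine key2 F (fun C j => if Sum.inl j ∈ C then 1 else 0)
    (fun C i => ∑ t, if Sum.inr (i, t) ∈ C then 1 else 0) m (∑ t, a t) ?_ ?_ ?_ ?_
  · intro C _ j
    split_ifs <;> omega
  · intro C hC u
    have h1 := circuit_even (hF C hC) u
    convert h1 using 1
    have h2 : ∑ e ∈ C, inc (bigG s) e u = ∑ e, if e ∈ C then inc (bigG s) e u else 0 := by
      rw [sum_ite_mem, univ_inter]
    rw [h2, Fintype.sum_sum_type, Fintype.sum_prod_type]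
    congr 1
    · refine sum_congr rfl fun j _ => ?_
      unfold inc bigG
      simp only [Sum.elim_inl]
      split_ifs <;> rfl
    · refine sum_congr rfl fun i _ => ?_
      have h3 : ∀ t : Fin s, (if (Sum.inr (i, t) : Fin 15 ⊕ (Fin 5 × Fin s)) ∈ C then
          inc (bigG s) (Sum.inr (i, t)) u else 0) =
          (if petersen.fst (Fin.natAdd 10 i) = u then
            (if (Sum.inr (i, t) : Fin 15 ⊕ (Fin 5 × Fin s)) ∈ C then 1 else 0) else 0) +
          (if petersen.snd (Fin.natAdd 10 i) = u then
            (if (Sum.inr (i, t) : Fin 15 ⊕ (Fin 5 × Fin s)) ∈ C then 1 else 0) else 0) := by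
        intro t
        unfold inc bigG
        simp only [Sum.elim_inr]
        split_ifs <;> rfl
      rw [sum_congr rfl fun t _ => h3 t, sum_add_distrib]
      congr 1
      · split_ifs
        · rfl
        · simp
      · split_ifs
        · rfl
        · simp
  · intro j
    rw [countP_sum, hw, hb]
    rfl
  · intro i
    rw [sum_swap]
    refine sum_congr rfl fun t _ => ?_
    rw [countP_sum, hw]
    rfl

end Pool.Agent.TH502.PK
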